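import Mathlib

/-!
# MP_b5e4d4_co: a counting formula for labeled self-converse digraphs

For a tuple `σ = (σ_1, …, σ_k)` of permutations of the points let `orb σ` be the number of classes
of ordered pairs of distinct points under the relation generated by `(u, v) ~ (σ_i v, σ_i u)`.
Then `2 ^ orb σ` is the number of digraphs for which all `σ_i` are isomorphisms onto the converse,
and an inclusion-exclusion over the possible numbers of such isomorphisms gives `s(p)`.
-/

set_option autoImplicit false

open Finset

namespace Pool.Agent.Results.MP_b5e4d4_co.Formula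

/-- Labeled digraphs on `p` points: loopless relations on `Fin p`. -/
def LDigraph (p : ℕ) : Type := {R : Fin p → Fin p → Prop // ∀ i, ¬ R i i}

/-- `σ` is an isomorphism of `D` onto its converse. -/
def IsConv {p : ℕ} (D : LDigraph p) (σ : Equiv.Perm (Fin p)) : Prop :=
  ∀ u v, D.1 u v ↔ D.1 (σ v) (σ u)

/-- `s(p)`: the number of labeled self-converse digraphs on `p` points. -/
noncomputable def s (p : ℕ) : ℕ := Nat.card {D : LDigraph p // ∃ σ : Equiv.Perm (Fin p), IsConv D σ}

/-- Ordered pairs of distinct points. -/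
abbrev EO (p : ℕ) : Type := {e : Fin p × Fin p // e.1 ≠ e.2}

/-- The map `(u, v) ↦ (σ v, σ u)` on ordered pairs of distinct points. -/
def act {p : ℕ} (σ : Equiv.Perm (Fin p)) (e : EO p) : EO p :=
  ⟨(σ e.1.2, σ e.1.1), fun h => e.2 (σ.injective h).symm⟩

/-- The number of classes of ordered pairs of distinct points under the equivalence relation
generated by `(u, v) ~ (σ_i v, σ_i u)`, `i < k`. -/
noncomputable def orb {p k : ℕ} (σ : Fin k → Equiv.Perm (Fin p)) : ℕ :=
  Nat.card (Quot (fun e e' : EO p => ∃ i, e' = act (σ i) e))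

open Classical in
/-- a digraph as a two-colouring of the ordered pairs -/
noncomputable def eD (p : ℕ) : LDigraph p ≃ (EO p → Bool) where
  toFun := fun D e => decide (D.1 e.1.1 e.1.2)
  invFun := fun c => ⟨fun i j => ∃ h : i ≠ j, c ⟨(i, j), h⟩ = true, fun i h => h.1 rfl⟩
  left_inv := by
    intro D
    apply Subtype.ext
    funext i j
    apply propext
    constructor
    · rintro ⟨h, hc⟩
      simpa using hc
    · intro h
      exact ⟨fun hij => D.2 i (by rw [← hij] at h; exact h), by simpa using h⟩
  right_inv := by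
    intro c
    funext e
    obtain ⟨⟨a, b⟩, he⟩ := e
    rcases hc : c ⟨(a, b), he⟩ with _ | _
    · simp [hc]
    · have : a ≠ b := he
      simp [hc, this]

theorem isConv_iff {p : ℕ} (D : LDigraph p) (σ : Equiv.Perm (Fin p)) :
    IsConv D σ ↔ ∀ e, eD p D (act σ e) = eD p D e := by
  constructor
  · rintro h ⟨⟨u, v⟩, huv⟩
    exact decide_eq_decide.2 (h u v).symm
  · intro h u v
    by_cases huv : u = v
    · subst huv
      exact ⟨fun h => absurd h (D.2 u), fun h => absurd h (D.2 _)⟩
    · exact (decide_eq_decide.1 (h ⟨(u, v), huv⟩)).symm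

/-- isomorphisms onto the converse -/
def Anti {p : ℕ} (c : EO p → Bool) : Type := {σ : Equiv.Perm (Fin p) // ∀ e, c (act σ e) = c e}

def stab {p : ℕ} (c : EO p → Bool) : Subgroup (Equiv.Perm (Fin p)) where
  carrier := {g | ∀ (u v : Fin p) (h : u ≠ v),
    c ⟨(g u, g v), fun hc => h (g.injective hc)⟩ = c ⟨(u, v), h⟩}
  mul_mem' := by
    intro a b ha hb u v h
    have h1 := ha (b u) (b v) (fun hc => h (b.injective hc))
    rw [hb u v h] at h1
    exact h1
  one_mem' := by intro u v h; rfl
  inv_mem' := by
    intro a ha u v h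
    have h1 := ha (a⁻¹ u) (a⁻¹ v) (fun hc => h (a⁻¹.injective hc))
    have h2 : ∀ x, a (a⁻¹ x) = x := fun x => a.apply_symm_apply x
    simp only [h2] at h1
    exact h1.symm

theorem card_anti {p : ℕ} (c : EO p → Bool) :
    Nat.card (Anti c) = 0 ∨ Nat.card (Anti c) ∈ (p.factorial).divisors := by
  classical
  by_cases h : Nonempty (Anti c)
  · right
    obtain ⟨g0⟩ := h
    have hinv : ∀ (u v : Fin p) (h : u ≠ v), c ⟨(g0.1⁻¹ v, g0.1⁻¹ u),
        fun hc => h ((g0.1⁻¹).injective hc).symm⟩ = c ⟨(u, v), h⟩ := by
      intro u v h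
      have h1 := g0.2 ⟨(g0.1⁻¹ v, g0.1⁻¹ u), fun hc => h ((g0.1⁻¹).injective hc).symm⟩
      have h2 : ∀ x, g0.1 (g0.1⁻¹ x) = x := fun x => g0.1.apply_symm_apply x
      simp only [act, h2] at h1
      exact h1.symm
    have e : Anti c ≃ stab c :=
      { toFun := fun g => ⟨g0.1⁻¹ * g.1, by
          intro u v h
          have h1 := g.2 ⟨(v, u), fun hc => h hc.symm⟩
          have h2 := hinv (g.1 v) (g.1 u) (fun hc => h (g.1.injective hc).symm)
          have h3 := g.2 ⟨(u, v), h⟩
          have h4 := g.2 ⟨(u, v), h⟩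
          simp only [act] at h1 h3
          rw [← h3]
          exact h2⟩
        invFun := fun k => ⟨g0.1 * k.1, by
          rintro ⟨⟨u, v⟩, h⟩
          have h1 := g0.2 ⟨(k.1 u, k.1 v), fun hc => h (k.1.injective hc)⟩
          have h2 := k.2 u v h
          simp only [act] at h1 ⊢
          exact h1.trans h2⟩
        left_inv := by intro g; apply Subtype.ext; simp
        right_inv := by intro g; apply Subtype.ext; simp }
    rw [Nat.card_congr e, Nat.mem_divisors]
    refine ⟨?_, (Nat.factorial_pos p).ne'⟩
    have := Subgroup.card_subgroup_dvd_card (stab c)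
    rwa [Nat.card_eq_fintype_card (α := Equiv.Perm (Fin p)), Fintype.card_perm,
      Fintype.card_fin] at this
  · left
    rw [Nat.card_eq_zero]
    left
    exact not_nonempty_iff.mp h

/-- colourings compatible with all members of a tuple -/
theorem card_fix {p k : ℕ} (σ : Fin k → Equiv.Perm (Fin p)) :
    Nat.card {c : EO p → Bool // ∀ i e, c (act (σ i) e) = c e} = 2 ^ orb σ := by
  have e : {c : EO p → Bool // ∀ i e, c (act (σ i) e) = c e} ≃
      (Quot (fun e e' : EO p => ∃ i, e' = act (σ i) e) → Bool) :=
    { toFun := fun c => Quot.lift c.1 (by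
        rintro x y ⟨i, rfl⟩
        exact (c.2 i x).symm)
      invFun := fun f => ⟨fun e => f (Quot.mk _ e), by
        intro i e
        have : Quot.mk (fun e e' : EO p => ∃ i, e' = act (σ i) e) e = Quot.mk _ (act (σ i) e) :=
          Quot.sound ⟨i, rfl⟩
        simp only [this]⟩
      left_inv := fun c => rfl
      right_inv := by
        intro f
        funext q
        induction q using Quot.ind
        rfl }
  have : Finite (Quot (fun e e' : EO p => ∃ i, e' = act (σ i) e)) := Quot.finite _
  rw [Nat.card_congr e, Nat.card_fun]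
  simp [orb]

theorem sum_pow (p k : ℕ) :
    ∑ c : EO p → Bool, (Nat.card (Anti c)) ^ k =
      ∑ σ : Fin k → Equiv.Perm (Fin p), 2 ^ orb σ := by
  classical
  have h1 : ∀ c : EO p → Bool, (Nat.card (Anti c)) ^ k =
      ∑ σ : Fin k → Equiv.Perm (Fin p), if (∀ i e, c (act (σ i) e) = c e) then 1 else 0 := by
    intro c
    have e : (Fin k → Anti c) ≃ {σ : Fin k → Equiv.Perm (Fin p) // ∀ i e, c (act (σ i) e) = c e} :=
      { toFun := fun f => ⟨fun i => (f i).1, fun i => (f i).2⟩
        invFun := fun σ i => ⟨σ.1 i, σ.2 i⟩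
        left_inv := fun f => rfl
        right_inv := fun f => rfl }
    have h2 : Nat.card (Fin k → Anti c) = (Nat.card (Anti c)) ^ k := by
      rw [Nat.card_fun]; simp
    rw [← h2, Nat.card_congr e, Nat.card_eq_fintype_card, Fintype.card_subtype, Finset.card_filter]
  simp_rw [h1]
  rw [Finset.sum_comm]
  apply Finset.sum_congr rfl
  intro σ _
  rw [← card_fix σ]
  rw [Nat.card_eq_fintype_card, Fintype.card_subtype, Finset.card_filter]

/-- **A counting formula for labeled self-converse digraphs**: a finite sum over the nonempty sets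
`A` of divisors of `p!` and the `|A|`-tuples `σ` of permutations of the points. -/
theorem result (p : ℕ) :
    (s p : ℚ) = ∑ A ∈ (p.factorial).divisors.powerset.erase ∅,
      ((-1) ^ (A.card + 1) / ∏ d ∈ A, (d : ℚ)) *
        ∑ σ : Fin A.card → Equiv.Perm (Fin p), (2 : ℚ) ^ orb σ := by
  classical
  have hs : s p = Nat.card {c : EO p → Bool // ∃ σ : Equiv.Perm (Fin p),
      ∀ e, c (act σ e) = c e} := by
    unfold s
    refine Nat.card_congr (Equiv.subtypeEquiv (eD p) ?_)
    intro D
    exact exists_congr (fun σ => isConv_iff D σ)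
  have h0 : ∀ c : EO p → Bool,
      (if (∃ σ : Equiv.Perm (Fin p), ∀ e, c (act σ e) = c e) then (1 : ℚ) else 0) =
      ∑ A ∈ (p.factorial).divisors.powerset.erase ∅,
        ((-1) ^ (A.card + 1) / ∏ d ∈ A, (d : ℚ)) * (Nat.card (Anti c) : ℚ) ^ A.card := by
    intro c
    set N : ℚ := (Nat.card (Anti c) : ℚ) with hN
    have hprod : ∏ d ∈ (p.factorial).divisors, (1 - N / (d : ℚ)) =
        ∑ A ∈ (p.factorial).divisors.powerset, ((-1) ^ A.card / ∏ d ∈ A, (d : ℚ)) * N ^ A.card := by
      rw [Finset.prod_sub]
      apply Finset.sum_congr rfl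
      intro A _
      rw [Finset.prod_const_one, Finset.prod_div_distrib, Finset.prod_const]
      ring
    have hsum : ∑ A ∈ (p.factorial).divisors.powerset.erase ∅,
        ((-1) ^ (A.card + 1) / ∏ d ∈ A, (d : ℚ)) * N ^ A.card =
        1 - ∏ d ∈ (p.factorial).divisors, (1 - N / (d : ℚ)) := by
      rw [hprod, ← Finset.add_sum_erase _ _ (Finset.empty_mem_powerset _)]
      simp only [Finset.card_empty, pow_zero, Finset.prod_empty, div_one, mul_one]
      rw [sub_add_eq_sub_sub, sub_self, zero_sub, ← Finset.sum_neg_distrib]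
      apply Finset.sum_congr rfl
      intro A _
      rw [pow_succ]
      ring
    rw [hsum]
    rcases card_anti c with hz | hd
    · have hne : ¬ ∃ σ : Equiv.Perm (Fin p), ∀ e, c (act σ e) = c e := by
        rintro ⟨g, hg⟩
        rw [Nat.card_eq_zero] at hz
        rcases hz with hz | hz
        · exact hz.false ⟨g, hg⟩
        · have : Finite (Anti c) := by unfold Anti; infer_instance
          exact not_finite (Anti c)
      have hN0 : N = 0 := by rw [hN, hz]; simp
      rw [if_neg hne, hN0]
      simp
    · have hpos : Nat.card (Anti c) ≠ 0 := (Nat.pos_of_mem_divisors hd).ne'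
      have hex : ∃ σ : Equiv.Perm (Fin p), ∀ e, c (act σ e) = c e := by
        have : Nonempty (Anti c) := by
          by_contra hne
          apply hpos
          rw [Nat.card_eq_zero]
          left
          exact not_nonempty_iff.mp hne
        obtain ⟨g⟩ := this
        exact ⟨g.1, g.2⟩
      rw [if_pos hex, Finset.prod_eq_zero hd]
      · simp
      · rw [hN, div_self (by exact_mod_cast hpos), sub_self]
  have h1 : (Nat.card {c : EO p → Bool // ∃ σ : Equiv.Perm (Fin p), ∀ e, c (act σ e) = c e} : ℚ) =
      ∑ c : EO p → Bool,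
        (if (∃ σ : Equiv.Perm (Fin p), ∀ e, c (act σ e) = c e) then (1 : ℚ) else 0) := by
    rw [Nat.card_eq_fintype_card, Fintype.card_subtype, Finset.card_filter]
    push_cast
    rfl
  rw [hs, h1]
  simp_rw [h0]
  rw [Finset.sum_comm]
  apply Finset.sum_congr rfl
  intro A _
  rw [← Finset.mul_sum]
  congr 1
  have := sum_pow p A.card
  exact_mod_cast this

end Pool.Agent.Results.MP_b5e4d4_co.Formula
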